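import Pool.Agent.K.MP_d0c5d0_lc.C1

namespace Pool.Agent.Results.MP_d0c5d0_lc.DetGap

open Pool.Agent.P.MP_d0c5d0_lc

theorem result (k : ℕ) (hk : 2 ≤ k) :
    ∃ O : Set (List Bool), HasLog O (DTIME O k) ∧ ¬ Closed O (DTIME O k) := gap k hk

end Pool.Agent.Results.MP_d0c5d0_lc.DetGap
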