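import Pool.Agent.K.MP_d0c5d0_lc.C0

namespace Pool.Agent.Results.MP_d0c5d0_lc.NondetIff

open Pool.Agent.P.MP_d0c5d0_lc

theorem result (O : Set (List Bool)) (k : ℕ) (hk : 1 ≤ k) :
    Closed O (NTIME O k) ↔ HasLog O (NTIME O k) := n_iff hk

end Pool.Agent.Results.MP_d0c5d0_lc.NondetIff
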