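import Pool.Agent.K.MP_d0c5d0_lc.C1

namespace Pool.Agent.Results.MP_d0c5d0_lc.Thresholds

open Pool.Agent.P.MP_d0c5d0_lc

theorem result (j : ℕ∞) (hj : 1 ≤ j) : ∃ O : Set (List Bool), ∀ k : ℕ, 1 ≤ k →
    (Closed O (DTIME O k) ↔ j < k) ∧ (Closed O (NTIME O k) ↔ j ≤ k) := thresholds j hj

end Pool.Agent.Results.MP_d0c5d0_lc.Thresholds
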